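import Pool.Agent.MP_1246c0_nt.H12.SpecA

/-! Formal properties of the sum of the tame and real symbols. -/

namespace Pool.Agent.MP_1246c0_nt.H12

open NumberField IsDedekindDomain Pool.Agent.MP_db5b97_nt.H85

namespace RA

/-- minus one -/
def m1 (L : Type) [Field L] : Un L := Un.mk (-1) (neg_ne_zero.2 one_ne_zero)

@[simp] theorem val_m1 {L : Type} [Field L] : (m1 L).val = -1 := rfl

variable {L : Type} [Field L] [NumberField L]

theorem approx (w : Sp L) {x : L} (hx : w.valuation L x ≤ 1) :
    ∃ z : 𝓞 L, w.valuation L (x - z) < 1 := by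
  obtain ⟨n, d, e⟩ := w.exists_primeCompl_mul_eq_of_integer x hx
  obtain ⟨c, i, hi, hc⟩ := w.isMaximal.exists_inv d.2
  refine ⟨n * c, ?_⟩
  have e' : x * ((d : 𝓞 L) : L) = n := e
  have hc' := congrArg (fun t : 𝓞 L => (t : L)) hc
  simp only [map_add, map_mul, map_one] at hc'
  have : x - ((n * c : 𝓞 L) : L) = x * (i : L) := by
    simp only [map_mul]
    linear_combination (-x) * hc' + (c : L) * e'
  rw [this, map_mul]
  exact lt_of_le_of_lt (mul_le_of_le_one_left' hx) ((val_lt_one_iff w i).2 hi)

theorem qv_congr (w : Sp L) {x y : L} (h : w.valuation L (x - y) < 1) : qv w x = qv w y := by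
  classical
  have key : ∀ x y : L, w.valuation L (x - y) < 1 → (∃ z : L, w.valuation L (y - z ^ 2) < 1) →
      ∃ z : L, w.valuation L (x - z ^ 2) < 1 := by
    rintro x y h ⟨z, hz⟩
    refine ⟨z, ?_⟩
    rw [show x - z ^ 2 = (x - y) + (y - z ^ 2) by ring]
    exact Valuation.map_add_lt _ h hz
  have h' : w.valuation L (y - x) < 1 := by rwa [Valuation.map_sub_swap]
  unfold qv
  exact if_congr ⟨key y x h', key x y h⟩ rfl rfl

theorem qv_one (w : Sp L) {x : L} (h : w.valuation L (x - 1) < 1) : qv w x = 0 := by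
  unfold qv
  exact if_pos ⟨1, by simpa using h⟩

open Classical in
theorem qv_coe (w : Sp L) {K : Type} [CommRing K] (ψ : 𝓞 L →+* K) (hs : Function.Surjective ψ)
    (hk : w.asIdeal = RingHom.ker ψ) (x : 𝓞 L) :
    qv w (x : L) = if IsSquare (ψ x) then 0 else 1 := by
  unfold qv
  refine if_congr ⟨?_, ?_⟩ rfl rfl
  · rintro ⟨z, hz⟩
    have h1 : w.valuation L z ≤ 1 := by
      have : w.valuation L (z ^ 2) ≤ 1 := by
        rw [show z ^ 2 = x - (x - z ^ 2) by ring]
        exact Valuation.map_sub_le _ (val_le_one w x) hz.le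
      rw [map_pow] at this
      exact (pow_le_one_iff_of_nonneg zero_le two_ne_zero).1 this
    obtain ⟨y, hy⟩ := approx w h1
    have h2 : w.valuation L ((x - y * y : 𝓞 L) : L) < 1 := by
      have : ((x - y * y : 𝓞 L) : L) = (x - z ^ 2) + (z - y) * (z + y) := by
        simp only [map_sub, map_mul]
        ring
      rw [this]
      refine Valuation.map_add_lt _ hz ?_
      rw [map_mul]
      exact lt_of_le_of_lt (mul_le_of_le_one_right'
        (Valuation.map_add_le _ h1 (val_le_one w y))) hy
    rw [val_lt_one_iff, hk, RingHom.mem_ker, map_sub, map_mul, sub_eq_zero] at h2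
    exact ⟨_, h2⟩
  · rintro ⟨r, hr⟩
    obtain ⟨y, rfl⟩ := hs r
    refine ⟨y, ?_⟩
    have : x - y * y ∈ w.asIdeal := by
      rw [hk, RingHom.mem_ker, map_sub, map_mul, hr, sub_self]
    rw [← val_lt_one_iff] at this
    simpa [sq] using this

open Classical in
theorem sq_mul {K : Type} [Field K] [Finite K] {a b : K} (ha : a ≠ 0) (hb : b ≠ 0) :
    (if IsSquare (a * b) then 0 else 1 : F2) =
      (if IsSquare a then 0 else 1) + if IsSquare b then 0 else 1 := by
  have := Fintype.ofFinite K
  have hm := map_mul (quadraticChar K) a b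
  have h1 := quadraticChar_one_iff_isSquare ha
  have h2 := quadraticChar_one_iff_isSquare hb
  have h3 := quadraticChar_one_iff_isSquare (mul_ne_zero ha hb)
  rw [← h1, ← h2, ← h3, hm]
  rcases quadraticChar_dichotomy ha with e | e <;> rcases quadraticChar_dichotomy hb with e' | e' <;>
    rw [e, e']
  · simp
  · simp
  · simp
  · simp only [mul_neg, mul_one, neg_neg, if_true]
    rw [if_neg (by decide)]
    decide

theorem qv_mul (w : Sp L) {x y : L} (hx : w.valuation L x = 1) (hy : w.valuation L y = 1) :
    qv w (x * y) = qv w x + qv w y := by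
  obtain ⟨a, ha⟩ := approx w hx.le
  obtain ⟨b, hb⟩ := approx w hy.le
  have hab : w.valuation L (x * y - (a * b : 𝓞 L)) < 1 := by
    have : x * y - (a * b : 𝓞 L) = (x - a) * y + a * (y - b) := by
      simp only [map_mul]
      ring
    rw [this]
    refine Valuation.map_add_lt _ ?_ ?_
    · rwa [map_mul, hy, mul_one]
    · rw [map_mul]
      exact lt_of_le_of_lt (mul_le_of_le_one_left' (val_le_one w a)) hb
  have hn : ∀ (x : L) (a : 𝓞 L), w.valuation L x = 1 → w.valuation L (x - a) < 1 →
      Ideal.Quotient.mk w.asIdeal a ≠ 0 := by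
    intro x a hx ha h
    rw [Ideal.Quotient.eq_zero_iff_mem, ← val_lt_one_iff] at h
    have := Valuation.map_add_lt _ ha h
    rw [sub_add_cancel, hx] at this
    exact lt_irrefl _ this
  have := w.isMaximal
  let _ : Field (𝓞 L ⧸ w.asIdeal) := Ideal.Quotient.field _
  have : Finite (𝓞 L ⧸ w.asIdeal) := Ideal.finiteQuotientOfFreeOfNeBot _ w.ne_bot
  have hq := qv_coe w (Ideal.Quotient.mk w.asIdeal) Ideal.Quotient.mk_surjective
    Ideal.mk_ker.symm
  rw [qv_congr w ha, qv_congr w hb, qv_congr w hab, hq, hq, hq, map_mul]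
  exact sq_mul (hn x a hx ha) (hn y b hy hb)

/-- the residue symbol on the units at a prime -/
noncomputable def Q (w : Sp L) : (ord w).ker →+ F2 :=
  AddMonoidHom.mk' (fun x => qv w x.1.val) fun x y =>
    qv_mul w ((ord_eq_zero_iff _ _).1 x.2) ((ord_eq_zero_iff _ _).1 y.2)

theorem Q_apply (w : Sp L) (x : (ord w).ker) : Q w x = qv w x.1.val := rfl

theorem qv_zsmul (w : Sp L) {x : Un L} (hx : ord w x = 0) (n : ℤ) :
    qv w (n • x).val = n • qv w x.val := by
  have h := map_zsmul (Q w) n ⟨x, hx⟩
  rwa [Q_apply, Q_apply, AddSubgroup.coe_zsmul] at h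

theorem ord_m1 (w : Sp L) : ord w (m1 L) = 0 := by
  rw [ord_eq_zero_iff]
  simp

omit [NumberField L] in
theorem two_m1 : (2 : ℤ) • m1 L = 0 := by
  refine Un.ext ?_
  simp

omit [NumberField L] in
theorem sq_m1 (n : ℤ) : (n * n) • m1 L = n • m1 L := by
  obtain ⟨k, hk⟩ := Int.even_mul_pred_self n
  have : n * n = n + k * 2 := by linarith
  rw [this, add_smul, mul_smul, two_m1, smul_zero, add_zero]

/-- the unit whose residue symbol is the tame symbol -/
noncomputable def tu (w : Sp L) (a b : Un L) : Un L :=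
  (ord w a * ord w b) • m1 L + (ord w b • a - ord w a • b)

theorem tame_eq (w : Sp L) (a b : Un L) : tame w a b = qv w (tu w a b).val := by
  rw [tu, Un.val_add, Un.val_zsmul, val_m1, tame]

theorem ord_tu (w : Sp L) (a b : Un L) : ord w (tu w a b) = 0 := by
  simp only [tu, map_add, map_sub, map_zsmul, ord_m1, smul_eq_mul]
  ring

theorem tame_add (w : Sp L) (a a' b : Un L) :
    tame w (a + a') b = tame w a b + tame w a' b := by
  have : tu w (a + a') b = tu w a b + tu w a' b := by
    simp only [tu, map_add, add_mul, add_smul, smul_add]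
    abel
  rw [tame_eq, tame_eq, tame_eq, this, Un.val_add]
  exact qv_mul w ((ord_eq_zero_iff _ _).1 (ord_tu w a b)) ((ord_eq_zero_iff _ _).1 (ord_tu w a' b))

theorem tame_symm (w : Sp L) (a b : Un L) : tame w a b = tame w b a := by
  have : tu w a b = (-1 : ℤ) • tu w b a := by
    have h := two_m1 (L := L)
    have : tu w a b = (-1 : ℤ) • tu w b a + (ord w a * ord w b) • (2 : ℤ) • m1 L := by
      simp only [tu, mul_comm (ord w b)]
      module
    rw [this, h, smul_zero, add_zero]
  rw [tame_eq, tame_eq, this, qv_zsmul w (ord_tu w b a), neg_one_zsmul, ZMod.neg_eq_self_mod_two]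

theorem qv_zero (w : Sp L) : qv w (0 : Un L).val = 0 := qv_one w (by simp)

theorem tame_fin (a b : Un L) : (Function.support fun w : Pr L 2 => tame w.1 a b).Finite := by
  refine (((ord_finite L a).union (ord_finite L b)).preimage
    (f := fun w : Pr L 2 => w.1) Subtype.val_injective.injOn).subset fun w hw => ?_
  by_contra h
  simp only [Set.mem_preimage, Set.mem_union, Set.mem_ofPred_eq, not_or, not_not] at h
  refine hw ?_
  show tame w.1 a b = 0
  rw [tame_eq, tu, h.1, h.2, mul_zero, zero_smul, zero_smul, zero_smul, sub_zero, add_zero, qv_zero]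

theorem tame_stb (w : Sp L) (a b : Un L) (h : a.val + b.val = 1) : tame w a b = 0 := by
  have key : ∀ a b : Un L, a.val + b.val = 1 → w.valuation L a.val < 1 → tame w a b = 0 := by
    intro a b h ha
    have e : b.val - 1 = -a.val := by linear_combination h
    have h1 : w.valuation L (b.val - 1) < 1 := by rwa [e, Valuation.map_neg]
    have h2 : ord w b = 0 := by
      rw [ord_eq_zero_iff, show b.val = 1 + (b.val - 1) by ring]
      exact Valuation.map_one_add_of_lt _ h1
    rw [tame_eq, tu, h2, mul_zero, zero_smul, zero_smul, zero_add, zero_sub, ← neg_smul,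
      qv_zsmul w h2, qv_one w h1, smul_zero]
  rcases lt_trichotomy (w.valuation L a.val) 1 with ha | ha | ha
  · exact key a b h ha
  · have hb : w.valuation L b.val ≤ 1 := by
      rw [show b.val = 1 - a.val by linear_combination h]
      exact Valuation.map_sub_le _ (by simp) ha.le
    rcases hb.lt_or_eq with hb | hb
    · rw [tame_symm]
      exact key b a (by rw [add_comm, h]) hb
    · rw [tame_eq, tu, (ord_eq_zero_iff _ _).2 ha, (ord_eq_zero_iff _ _).2 hb, mul_zero, zero_smul,
        zero_smul, zero_smul, sub_zero, add_zero, qv_zero]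
  · have hb : w.valuation L b.val = w.valuation L a.val := by
      rw [show b.val = 1 - a.val by linear_combination h]
      exact Valuation.map_sub_eq_of_lt_right _ (by simpa using ha)
    have ho : ord w b = ord w a := by rw [ord_apply, ord_apply, hb]
    have e : tu w a b = ord w a • (m1 L + a - b) := by
      rw [tu, ho, sq_m1]
      module
    have h0 : ord w (m1 L + a - b) = 0 := by
      rw [map_sub, map_add, ord_m1, ho, zero_add, sub_self]
    have h1 : w.valuation L ((m1 L + a - b).val - 1) < 1 := by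
      have : (m1 L + a - b).val - 1 = -b.val⁻¹ := by
        have := b.val_ne
        rw [Un.val_sub, Un.val_add, val_m1]
        field_simp
        linear_combination -h
      rw [this, Valuation.map_neg, map_inv₀, hb]
      exact inv_lt_one_of_one_lt₀ ha
    rw [tame_eq, e, qv_zsmul w h0, qv_one w h1, smul_zero]

theorem tame_neg (w : Sp L) (a b : Un L) (h : a.val + b.val = 0) : tame w a b = 0 := by
  have e : b = m1 L + a := by
    refine Un.ext ?_
    rw [Un.val_add, val_m1]
    linear_combination h
  have ho : ord w b = ord w a := by rw [e, map_add, ord_m1, zero_add]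
  have : tu w a b = 0 := by
    rw [tu, ho, sq_m1, e]
    module
  rw [tame_eq, this, qv_zero]

open Classical in
theorem real_add {x y z : ℝ} (hx : x ≠ 0) (hy : y ≠ 0) :
    (if x * y < 0 ∧ z < 0 then 1 else 0 : F2) =
      (if x < 0 ∧ z < 0 then 1 else 0) + if y < 0 ∧ z < 0 then 1 else 0 := by
  by_cases hz : z < 0
  · simp only [hz, and_true]
    rcases hx.lt_or_gt with hx | hx <;> rcases hy.lt_or_gt with hy | hy
    · rw [if_neg (mul_pos_of_neg_of_neg hx hy).not_gt, if_pos hx, if_pos hy]
      decide
    · rw [if_pos (mul_neg_of_neg_of_pos hx hy), if_pos hx, if_neg hy.not_gt, add_zero]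
    · rw [if_pos (mul_neg_of_pos_of_neg hx hy), if_neg hx.not_gt, if_pos hy, zero_add]
    · rw [if_neg (mul_pos hx hy).not_gt, if_neg hx.not_gt, if_neg hy.not_gt, add_zero]
  · simp [hz]

theorem dy_add (a a' b : Un L) : dy (a + a') b = dy a b + dy a' b := by
  unfold dy
  simp only [tame_add]
  rw [finsum_add_distrib (tame_fin a b) (tame_fin a' b), add_add_add_comm]
  congr 1
  rw [← finsum_add_distrib (Set.toFinite _) (Set.toFinite _)]
  refine finsum_congr fun ρ => ?_
  rw [Un.val_add, map_mul]
  exact real_add (by simp) (by simp)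

theorem dy_symm (a b : Un L) : dy a b = dy b a := by
  unfold dy
  simp only [tame_symm _ a b, and_comm]

theorem dy_zero (a b : Un L) (h : ∀ w : Sp L, tame w a b = 0) (c : ℕ) (e : a.val + b.val = c) :
    dy a b = 0 := by
  unfold dy
  simp only [h, finsum_zero, zero_add]
  refine finsum_eq_zero_of_forall_eq_zero fun ρ => if_neg fun h' => ?_
  have := congrArg ρ e
  rw [map_add, map_natCast] at this
  have h0 : (0 : ℝ) ≤ c := Nat.cast_nonneg c
  linarith [h'.1, h'.2]

end RA

theorem rowRA : SRA where
  add _ _ _ := RA.dy_add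
  symm _ _ _ := RA.dy_symm
  stb _ _ _ a b h := RA.dy_zero a b (fun w => RA.tame_stb w a b h) 1 (by simpa using h)
  neg _ _ _ a b h := RA.dy_zero a b (fun w => RA.tame_neg w a b h) 0 (by simpa using h)
  qmul _ _ _ w _ _ := RA.qv_mul w.1
  qhom _ _ _ w _ ψ _ h x := by
    rw [RA.qv_coe w ψ (ZMod.ringHom_surjective ψ) h, qr]

end Pool.Agent.MP_1246c0_nt.H12
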